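import Pool.Agent.U722.FF.Stm

set_option autoImplicit false

/-! Project FF, package UNI: groups of plus or minus unipotent matrices. -/

namespace Pool.Agent.U2.FFP.UNI

open MvPolynomial Matrix U722.FF

/-! ### Algebra -/

section alg

variable {R : Type} [CommRing R] [IsDomain R]

theorem sq0 {x : R} (h : x ^ 2 = 0) : x = 0 := by
  simpa using h

/-- the entries of the product of two nilpotent matrices with trace-free product -/
theorem prod0 {a b c a' b' c' : R} (h1 : a ^ 2 + b * c = 0) (h2 : a' ^ 2 + b' * c' = 0)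
    (h3 : 2 * (a * a') + b * c' + c * b' = 0) :
    a * a' + b * c' = 0 ∧ a * b' - b * a' = 0 ∧ c * a' - a * c' = 0 ∧ c * b' + a * a' = 0 := by
  have e1 : a * a' + b * c' = 0 := by
    apply sq0
    linear_combination (a' ^ 2) * h1 + (-(b * c)) * h2 + (b * c') * h3
  have e4 : c * b' + a * a' = 0 := by linear_combination h3 - e1
  refine ⟨e1, ?_, ?_, e4⟩
  · apply sq0
    linear_combination (b' ^ 2) * h1 + (b ^ 2) * h2 - (b * b') * h3
  · apply sq0
    linear_combination (c' ^ 2) * h1 + (c ^ 2) * h2 - (c * c') * h3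

/-- plus or minus unipotent: `e = ±1`, determinant one and trace `2 e` -/
structure PU (e : R) (A : Matrix (Fin 2) (Fin 2) R) : Prop where
  e2 : e = 1 ∨ e = -1
  det : A 0 0 * A 1 1 - A 0 1 * A 1 0 = 1
  tr : A 0 0 + A 1 1 = 2 * e

/-- the nilpotent part -/
def NP (e : R) (A : Matrix (Fin 2) (Fin 2) R) : Matrix (Fin 2) (Fin 2) R := e • A - 1

variable [CharZero R]

theorem key {e e' x y : R} {A B : Matrix (Fin 2) (Fin 2) R} (hA : PU e A) (hB : PU e' B)
    (h1 : PU x (A * B)) (h2 : PU y (A * (A * B))) :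
    x = e * e' ∧ NP (e * e') (A * B) = NP e A + NP e' B := by
  have he : e * e = 1 := by rcases hA.e2 with h | h <;> rw [h] <;> ring
  have he' : e' * e' = 1 := by rcases hB.e2 with h | h <;> rw [h] <;> ring
  have two : (2 : R) ≠ 0 := two_ne_zero
  obtain ⟨a, ha⟩ : ∃ a, a = e * A 0 0 - 1 := ⟨_, rfl⟩
  obtain ⟨b, hb⟩ : ∃ b, b = e * A 0 1 := ⟨_, rfl⟩
  obtain ⟨c, hc⟩ : ∃ c, c = e * A 1 0 := ⟨_, rfl⟩
  obtain ⟨a', ha'⟩ : ∃ a', a' = e' * B 0 0 - 1 := ⟨_, rfl⟩
  obtain ⟨b', hb'⟩ : ∃ b', b' = e' * B 0 1 := ⟨_, rfl⟩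
  obtain ⟨c', hc'⟩ : ∃ c', c' = e' * B 1 0 := ⟨_, rfl⟩
  have A00 : A 0 0 = e * (a + 1) := by linear_combination (-(A 0 0)) * he - e * ha
  have A01 : A 0 1 = e * b := by linear_combination (-(A 0 1)) * he - e * hb
  have A10 : A 1 0 = e * c := by linear_combination (-(A 1 0)) * he - e * hc
  have A11 : A 1 1 = e * (1 - a) := by linear_combination hA.tr - A00
  have B00 : B 0 0 = e' * (a' + 1) := by linear_combination (-(B 0 0)) * he' - e' * ha'
  have B01 : B 0 1 = e' * b' := by linear_combination (-(B 0 1)) * he' - e' * hb'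
  have B10 : B 1 0 = e' * c' := by linear_combination (-(B 1 0)) * he' - e' * hc'
  have B11 : B 1 1 = e' * (1 - a') := by linear_combination hB.tr - B00
  have dA : a ^ 2 + b * c = 0 := by
    have := hA.det
    rw [A00, A01, A10, A11] at this
    linear_combination (-1 : R) * this + ((a + 1) * (1 - a) - b * c) * he
  have dB : a' ^ 2 + b' * c' = 0 := by
    have := hB.det
    rw [B00, B01, B10, B11] at this
    linear_combination (-1 : R) * this + ((a' + 1) * (1 - a') - b' * c') * he'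
  obtain ⟨t, ht⟩ : ∃ t, t = 2 * (a * a') + b * c' + c * b' := ⟨_, rfl⟩
  have t1 : e * e' * (2 + t) = 2 * x := by
    have := h1.tr
    simp only [Matrix.mul_apply, Fin.sum_univ_two] at this
    rw [A00, A01, A10, A11, B00, B01, B10, B11] at this
    rw [ht]
    linear_combination this
  have t2 : e' * (2 + 2 * t) = 2 * y := by
    have := h2.tr
    simp only [Matrix.mul_apply, Fin.sum_univ_two] at this
    rw [A00, A01, A10, A11, B00, B01, B10, B11] at this
    rw [ht]
    linear_combination this - e' * (2 + 4 * (a * a') + 2 * (b * c') + 2 * (c * b')) * he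
      - 2 * e' * e ^ 2 * dA
  have hx : x * x = 1 := by rcases h1.e2 with h | h <;> rw [h] <;> ring
  have hy : y * y = 1 := by rcases h2.e2 with h | h <;> rw [h] <;> ring
  have t3 : (2 + t) ^ 2 = 4 := by
    have : (e * e' * (2 + t)) ^ 2 = (2 * x) ^ 2 := by rw [t1]
    linear_combination this + 4 * hx - (2 + t) ^ 2 * (e' * e') * he - (2 + t) ^ 2 * he'
  have t4 : (2 + 2 * t) ^ 2 = 4 := by
    have : (e' * (2 + 2 * t)) ^ 2 = (2 * y) ^ 2 := by rw [t2]
    linear_combination this + 4 * hy - (2 + 2 * t) ^ 2 * he'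
  have t0 : t = 0 := by
    have h8 : (2 * 2 * 2 : R) * t = 0 := by linear_combination 4 * t3 - t4
    have h9 : (2 * 2 * 2 : R) ≠ 0 := mul_ne_zero (mul_ne_zero two two) two
    exact (mul_eq_zero.1 h8).resolve_left h9
  rw [t0] at ht t1
  have hxe : x = e * e' := by
    apply mul_left_cancel₀ two
    linear_combination -t1
  obtain ⟨p1, p2, p3, p4⟩ := prod0 dA dB ht.symm
  refine ⟨hxe, ?_⟩
  have he2 : e * e' * (e * e') = 1 := by linear_combination (e' * e') * he + he'
  ext i j
  fin_cases i <;> fin_cases j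
  · change e * e' * (A * B) 0 0 - (1 : Matrix (Fin 2) (Fin 2) R) 0 0 =
      (e * A 0 0 - (1 : Matrix (Fin 2) (Fin 2) R) 0 0) +
        (e' * B 0 0 - (1 : Matrix (Fin 2) (Fin 2) R) 0 0)
    rw [Matrix.mul_apply, Fin.sum_univ_two, Matrix.one_apply_eq, A00, A01, B00, B10]
    linear_combination ((a + 1) * (a' + 1) + b * c') * he2 - (a + 1) * he - (a' + 1) * he' + p1
  · change e * e' * (A * B) 0 1 - (1 : Matrix (Fin 2) (Fin 2) R) 0 1 =
      (e * A 0 1 - (1 : Matrix (Fin 2) (Fin 2) R) 0 1) +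
        (e' * B 0 1 - (1 : Matrix (Fin 2) (Fin 2) R) 0 1)
    rw [Matrix.mul_apply, Fin.sum_univ_two, Matrix.one_apply_ne (by decide), A00, A01, B01, B11]
    linear_combination ((a + 1) * b' + b * (1 - a')) * he2 - b * he - b' * he' + p2
  · change e * e' * (A * B) 1 0 - (1 : Matrix (Fin 2) (Fin 2) R) 1 0 =
      (e * A 1 0 - (1 : Matrix (Fin 2) (Fin 2) R) 1 0) +
        (e' * B 1 0 - (1 : Matrix (Fin 2) (Fin 2) R) 1 0)
    rw [Matrix.mul_apply, Fin.sum_univ_two, Matrix.one_apply_ne (by decide), A10, A11, B00, B10]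
    linear_combination (c * (a' + 1) + (1 - a) * c') * he2 - c * he - c' * he' + p3
  · change e * e' * (A * B) 1 1 - (1 : Matrix (Fin 2) (Fin 2) R) 1 1 =
      (e * A 1 1 - (1 : Matrix (Fin 2) (Fin 2) R) 1 1) +
        (e' * B 1 1 - (1 : Matrix (Fin 2) (Fin 2) R) 1 1)
    rw [Matrix.mul_apply, Fin.sum_univ_two, Matrix.one_apply_eq, A10, A11, B01, B11]
    linear_combination (c * b' + (1 - a) * (1 - a')) * he2 - (1 - a) * he - (1 - a') * he' + p4

end alg

/-! ### The group -/

section grp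

variable {n : ℕ} {H : Type} [Group H] (ρ : H →* GL (Fin 2) (MvPolynomial (Fin n) ℤ))

theorem det_pm (g : GL (Fin 2) (MvPolynomial (Fin n) ℤ)) : g.1.det = 1 ∨ g.1.det = -1 := by
  have h : IsUnit g.1.det := (Matrix.isUnit_iff_isUnit_det _).1 g.isUnit
  rw [MvPolynomial.isUnit_iff_eq_C_of_isReduced] at h
  obtain ⟨r, hr, h⟩ := h
  rcases Int.isUnit_iff.1 hr with rfl | rfl
  · left; rw [h]; simp
  · right; rw [h]; simp

theorem tr2 (A : Matrix (Fin 2) (Fin 2) (MvPolynomial (Fin n) ℤ)) :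
    A.trace = A 0 0 + A 1 1 := Matrix.trace_fin_two A

theorem sq_of_det {g : GL (Fin 2) (MvPolynomial (Fin n) ℤ)} (hd : g.1.det = -1)
    (ht : g.1.trace = 0) : g ^ 2 = 1 := by
  apply Units.ext
  rw [Matrix.det_fin_two] at hd
  rw [tr2] at ht
  rw [Units.val_pow_eq_pow_val, pow_two, Units.val_one]
  ext1 i j
  fin_cases i <;> fin_cases j
  · change (g.1 * g.1) 0 0 = (1 : Matrix (Fin 2) (Fin 2) (MvPolynomial (Fin n) ℤ)) 0 0
    rw [Matrix.mul_apply, Fin.sum_univ_two, Matrix.one_apply_eq]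
    linear_combination g.1 0 0 * ht - hd
  · change (g.1 * g.1) 0 1 = (1 : Matrix (Fin 2) (Fin 2) (MvPolynomial (Fin n) ℤ)) 0 1
    rw [Matrix.mul_apply, Fin.sum_univ_two, Matrix.one_apply_ne (by decide)]
    linear_combination g.1 0 1 * ht
  · change (g.1 * g.1) 1 0 = (1 : Matrix (Fin 2) (Fin 2) (MvPolynomial (Fin n) ℤ)) 1 0
    rw [Matrix.mul_apply, Fin.sum_univ_two, Matrix.one_apply_ne (by decide)]
    linear_combination g.1 1 0 * ht
  · change (g.1 * g.1) 1 1 = (1 : Matrix (Fin 2) (Fin 2) (MvPolynomial (Fin n) ℤ)) 1 1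
    rw [Matrix.mul_apply, Fin.sum_univ_two, Matrix.one_apply_eq]
    linear_combination g.1 1 1 * ht - hd

theorem pu (hinj : Function.Injective ρ) (hnt : NoTor H) (hcv : ∀ h, CV (ρ h)) (h : H) :
    ∃ e : MvPolynomial (Fin n) ℤ, PU e (ρ h).1 := by
  have h2 : (2 : MvPolynomial (Fin n) ℤ) ≠ 0 := two_ne_zero
  have hcv' := hcv h
  rcases det_pm (ρ h) with hd | hd
  · rcases hcv' with ht | ht
    · refine ⟨1, Or.inl rfl, ?_, ?_⟩
      · rw [Matrix.det_fin_two] at hd; exact hd
      · rw [hd, tr2] at ht; linear_combination -ht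
    · refine ⟨-1, Or.inr rfl, ?_, ?_⟩
      · rw [Matrix.det_fin_two] at hd; exact hd
      · rw [hd, tr2] at ht; linear_combination ht
  · exfalso
    have ht : (ρ h).1.trace = 0 := by
      rcases hcv' with ht | ht
      · rw [hd] at ht; linear_combination -ht
      · rw [hd] at ht; linear_combination ht
    have h3 := sq_of_det hd ht
    have h4 : h ^ 2 = 1 := by
      apply hinj
      rw [map_pow, h3, map_one]
    have h5 := hnt h 2 (by norm_num) h4
    rw [h5, map_one] at ht
    simp at ht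

variable {ρ} in
theorem NP_inj {e e' : MvPolynomial (Fin n) ℤ} (he : e * e = 1) (hee : e = e')
    {A B : Matrix (Fin 2) (Fin 2) (MvPolynomial (Fin n) ℤ)} (h : NP e A = NP e' B) : A = B := by
  subst hee
  have h1 : e • A = e • B := by
    unfold NP at h
    exact sub_left_injective h
  have h2 : e • (e • A) = e • (e • B) := by rw [h1]
  rw [smul_smul, smul_smul, he, one_smul, one_smul] at h2
  exact h2

theorem deg_NP {c : ℕ} {e : MvPolynomial (Fin n) ℤ} {A : Matrix (Fin 2) (Fin 2) (MvPolynomial (Fin n) ℤ)}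
    (he : e = 1 ∨ e = -1) (hA : ∀ i j, (A i j).totalDegree ≤ c) (i j : Fin 2) :
    (NP e A i j).totalDegree ≤ c := by
  change (e * A i j - (1 : Matrix (Fin 2) (Fin 2) (MvPolynomial (Fin n) ℤ)) i j).totalDegree ≤ c
  refine (MvPolynomial.totalDegree_sub _ _).trans (max_le ?_ ?_)
  · rcases he with rfl | rfl
    · rw [one_mul]; exact hA i j
    · rw [neg_one_mul, MvPolynomial.totalDegree_neg]; exact hA i j
  · rw [Matrix.one_apply]
    split_ifs
    · simp
    · simp

/-- the index set of the coefficients -/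
abbrev Ix (n c : ℕ) : Type := {s : Fin n →₀ ℕ // s.degree ≤ c}

instance (n c : ℕ) : Finite (Ix n c) := by
  exact (Finsupp.finite_of_degree_le c).to_subtype

/-- the space of the coefficients -/
abbrev Mc (n c : ℕ) : Type := Fin 2 → Fin 2 → Ix n c → ℤ

end grp

theorem t_UNI : S_UNI := by
  intro n c H _ ρ hinj hnt hdeg hcv
  choose e he using pu ρ hinj hnt hcv
  have he2 : ∀ h, e h * e h = 1 := by
    intro h
    rcases (he h).e2 with h1 | h1 <;> rw [h1] <;> ring
  have hkey : ∀ a b : H, e (a * b) = e a * e b ∧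
      NP (e (a * b)) (ρ (a * b)).1 = NP (e a) (ρ a).1 + NP (e b) (ρ b).1 := by
    intro a b
    have m1 : (ρ (a * b)).1 = (ρ a).1 * (ρ b).1 := by rw [map_mul]; rfl
    have m2 : (ρ (a * (a * b))).1 = (ρ a).1 * ((ρ a).1 * (ρ b).1) := by
      rw [map_mul, map_mul]; rfl
    have p1 := he (a * b)
    have p2 := he (a * (a * b))
    rw [m1] at p1
    rw [m2] at p2
    obtain ⟨k1, k2⟩ := key (he a) (he b) p1 p2
    refine ⟨k1, ?_⟩
    rw [k1, m1]
    exact k2
  have hcomm : ∀ a b : H, a * b = b * a := by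
    intro a b
    apply hinj
    apply Units.ext
    refine NP_inj (he2 (a * b)) ?_ ((hkey a b).2.trans ((add_comm _ _).trans (hkey b a).2.symm))
    rw [(hkey a b).1, (hkey b a).1, mul_comm]
  refine ⟨hcomm, ?_⟩
  -- the coefficients
  let Φ : H → Mc n c := fun h i j s => MvPolynomial.coeff s.1 (NP (e h) (ρ h).1 i j)
  have hΦ : ∀ a b, Φ (a * b) = Φ a + Φ b := by
    intro a b
    funext i j s
    change MvPolynomial.coeff s.1 (NP (e (a * b)) (ρ (a * b)).1 i j) =
      MvPolynomial.coeff s.1 (NP (e a) (ρ a).1 i j) + MvPolynomial.coeff s.1 (NP (e b) (ρ b).1 i j)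
    rw [(hkey a b).2, Matrix.add_apply, MvPolynomial.coeff_add]
  have hN : ∀ h, Φ h = 0 → NP (e h) (ρ h).1 = 0 := by
    intro h hh
    ext1 i j
    ext1 s
    rw [Matrix.zero_apply, MvPolynomial.coeff_zero]
    by_cases hs : s.degree ≤ c
    · have := congrFun (congrFun (congrFun hh i) j) ⟨s, hs⟩
      exact this
    · apply MvPolynomial.coeff_eq_zero_of_totalDegree_lt
      have := deg_NP (he h).e2 (hdeg h) i j
      push Not at hs
      exact lt_of_le_of_lt this hs
  have hinj' : ∀ h, Φ h = 0 → h = 1 := by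
    intro h hh
    have h1 := hN h hh
    have h2 : e h • (ρ h).1 = 1 := by
      unfold NP at h1
      exact sub_eq_zero.1 h1
    apply hnt h 2 (by norm_num)
    apply hinj
    rw [map_pow, map_one]
    apply Units.ext
    rw [Units.val_pow_eq_pow_val, pow_two, Units.val_one]
    have h3 : (e h • (ρ h).1) * (e h • (ρ h).1) = 1 := by rw [h2, one_mul]
    rw [smul_mul_assoc, mul_smul_comm, smul_smul, he2, one_smul] at h3
    exact h3
  let Ψ : Additive H →+ Mc n c := AddMonoidHom.mk' (fun h => Φ h.toMul) (fun a b => hΦ a.toMul b.toMul)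
  have hΨ : Function.Injective Ψ := by
    rw [injective_iff_map_eq_zero]
    intro a ha
    have := hinj' a.toMul ha
    exact this
  have hfg : AddGroup.FG Ψ.range := by
    rw [AddGroup.fg_iff_addSubgroup_fg]
    have h1 : (AddSubgroup.toIntSubmodule Ψ.range).FG := IsNoetherian.noetherian _
    have h2 := (Submodule.fg_iff_addSubgroup_fg _).1 h1
    rwa [AddSubgroup.toIntSubmodule_toAddSubgroup] at h2
  have hfgA : AddGroup.FG (Additive H) := by
    have e1 := (AddMonoidHom.ofInjective hΨ).symm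
    exact AddGroup.fg_of_surjective (f := e1.toAddMonoidHom) e1.surjective
  exact GroupFG.iff_add_fg.2 hfgA

end Pool.Agent.U2.FFP.UNI
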